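import Mathlib
import Pool.Agent.Helper43.SF.Stmts

/-!
MP_9206b6_nt, module FX: fibre sums of the first part of the expansion coefficient.
-/

set_option autoImplicit false

namespace Pool.Agent.Helper43.SF

open Finset Filter Topology
open Pool.Agent.Helper43.OD (h)

/-- telescoping -/
theorem fx_tele (a n : ℕ) : HasSum (fun j : ℕ => (1 : ℝ) / ((j + a + 1 : ℕ) : ℝ) -
    1 / ((j + a + n + 1 : ℕ) : ℝ)) (h (a + n) 1 - h a 1) := by
  have hh : ∀ i : ℕ, h (i + 1) 1 = h i 1 + 1 / ((i + 1 : ℕ) : ℝ) := by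
    intro i
    unfold Pool.Agent.Helper43.OD.h
    rw [Finset.sum_range_succ, pow_one]
  have hpart : ∀ M : ℕ, ∑ j ∈ range M, ((1 : ℝ) / ((j + a + 1 : ℕ) : ℝ) -
      1 / ((j + a + n + 1 : ℕ) : ℝ)) = (h (a + n) 1 - h a 1) - (h (M + a + n) 1 - h (M + a) 1) := by
    intro M
    induction M with
    | zero => simp
    | succ M ih =>
      rw [Finset.sum_range_succ, ih]
      have e1 : M + 1 + a + n = (M + a + n) + 1 := by ring
      have e2 : M + 1 + a = (M + a) + 1 := by ring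
      rw [e1, e2, hh, hh]
      ring
  rw [hasSum_iff_tendsto_nat_of_nonneg]
  · have hb : ∀ (m M : ℕ), 0 ≤ h (M + m) 1 - h M 1 ∧ h (M + m) 1 - h M 1 ≤ m * (1 / ((M : ℝ) + 1)) := by
      intro m M
      induction m with
      | zero => simp
      | succ m ih =>
        rw [← Nat.add_assoc, hh]
        have e1 : (0 : ℝ) ≤ 1 / ((M + m + 1 : ℕ) : ℝ) := by positivity
        have e2 : (1 : ℝ) / ((M + m + 1 : ℕ) : ℝ) ≤ 1 / ((M : ℝ) + 1) := by
          apply one_div_le_one_div_of_le (by positivity)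
          push_cast
          have : (0 : ℝ) ≤ m := Nat.cast_nonneg m
          linarith
        constructor
        · linarith [ih.1]
        · push_cast
          push_cast at e2
          nlinarith [ih.2]
    have h0 : Tendsto (fun M : ℕ => h (M + a + n) 1 - h (M + a) 1) atTop (𝓝 0) := by
      have h1 : Tendsto (fun M : ℕ => (n : ℝ) * (1 / ((M : ℝ) + 1))) atTop (𝓝 ((n : ℝ) * 0)) :=
        tendsto_one_div_add_atTop_nhds_zero_nat.const_mul _
      rw [mul_zero] at h1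
      refine tendsto_of_tendsto_of_tendsto_of_le_of_le tendsto_const_nhds h1 ?_ ?_
      · intro M
        exact (hb n (M + a)).1
      · intro M
        refine (hb n (M + a)).2.trans ?_
        apply mul_le_mul_of_nonneg_left _ (Nat.cast_nonneg n)
        apply one_div_le_one_div_of_le (by positivity)
        push_cast
        have : (0 : ℝ) ≤ a := Nat.cast_nonneg a
        linarith
    have h2 := (tendsto_const_nhds (x := h (a + n) 1 - h a 1)).sub h0
    rw [sub_zero] at h2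
    refine h2.congr ?_
    intro M
    rw [hpart]
  · intro j
    rw [sub_nonneg]
    apply one_div_le_one_div_of_le (by positivity)
    push_cast
    have : (0 : ℝ) ≤ n := Nat.cast_nonneg n
    linarith

/-- the tail of zeta -/
theorem fx_tail (s : ℕ) (hs : 2 ≤ s) (a : ℕ) :
    HasSum (fun j : ℕ => (1 : ℝ) / ((j + a + 1 : ℕ) : ℝ) ^ s) (zt s - h a s) := by
  have hsum : Summable (fun n : ℕ => (1 : ℝ) / ((n + 1 : ℕ) : ℝ) ^ s) :=
    (summable_nat_add_iff 1).2 (Real.summable_one_div_nat_pow.2 hs)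
  have h1 := hsum.hasSum
  have h2 := (hasSum_nat_add_iff' a).2 h1
  exact h2

/-- the fibre term -/
noncomputable def fx_x (s n j : ℕ) : ℝ :=
  (1 / 2) * (((n : ℝ) / ((j + 1 : ℕ) : ℝ)) ^ s - (-1) ^ s * ((n : ℝ) / ((j + 2 * n + 1 : ℕ) : ℝ)) ^ s)
    - (if s = 1 then (n : ℝ) / ((j + n + 1 : ℕ) : ℝ) else 0)

theorem fx_sum (s n : ℕ) (hs : 1 ≤ s) (hn : 1 ≤ n) :
    HasSum (fun j : ℕ => fx_x s n j) (F s n) := by
  by_cases h1 : s = 1
  · subst h1
    have t1 := fx_tele 0 n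
    have t2 := fx_tele n n
    have t3 := (t1.sub t2).mul_left ((1 / 2) * (n : ℝ))
    have e1 : F 1 n = (1 / 2) * (n : ℝ) * ((h (0 + n) 1 - h 0 1) - (h (n + n) 1 - h n 1)) := by
      unfold F
      rw [if_pos rfl]
      have : h 0 1 = 0 := by simp [Pool.Agent.Helper43.OD.h]
      rw [this, zero_add, two_mul n]
      ring
    rw [e1]
    refine t3.congr_fun ?_
    intro j
    unfold fx_x
    rw [if_pos rfl]
    have e2 : ((j + 0 + 1 : ℕ) : ℝ) = ((j + 1 : ℕ) : ℝ) := by simp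
    have e3 : ((j + 0 + n + 1 : ℕ) : ℝ) = ((j + n + 1 : ℕ) : ℝ) := by simp
    have e4 : ((j + n + n + 1 : ℕ) : ℝ) = ((j + 2 * n + 1 : ℕ) : ℝ) := by
      push_cast
      ring
    rw [e2, e3, e4]
    ring
  · have hs2 : 2 ≤ s := by omega
    have t1 := fx_tail s hs2 0
    have t2 := fx_tail s hs2 (2 * n)
    have t3 := ((t1.sub (t2.mul_left ((-1 : ℝ) ^ s))).mul_left ((1 / 2) * (n : ℝ) ^ s))
    have e1 : F s n = (1 / 2) * (n : ℝ) ^ s * ((zt s - h 0 s) - (-1 : ℝ) ^ s *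
        (zt s - h (2 * n) s)) := by
      unfold F
      rw [if_neg h1]
      have : h 0 s = 0 := by simp [Pool.Agent.Helper43.OD.h]
      rw [this]
      split_ifs with he
      · rw [he.neg_one_pow]; ring
      · rw [(Nat.not_even_iff_odd.1 he).neg_one_pow]; ring
    rw [e1]
    refine t3.congr_fun ?_
    intro j
    unfold fx_x
    rw [if_neg h1, add_zero, div_pow, div_pow]
    have e2 : ((j + 2 * n + 1 : ℕ) : ℝ) = ((j + 2 * n + 1 : ℕ) : ℝ) := rfl
    ring

theorem fx_nonneg (s n j : ℕ) (hs : 1 ≤ s) (hn : 1 ≤ n) : 0 ≤ fx_x s n j := by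
  unfold fx_x
  have hn' : (0 : ℝ) < n := by exact_mod_cast hn
  by_cases h1 : s = 1
  · subst h1
    rw [if_pos rfl]
    push_cast
    have hj : (0 : ℝ) ≤ j := Nat.cast_nonneg j
    have e1 : (1 / 2) * (((n : ℝ) / ((j : ℝ) + 1)) ^ 1 - (-1) ^ 1 * ((n : ℝ) / ((j : ℝ) + 2 * n + 1)) ^ 1)
        - (n : ℝ) / ((j : ℝ) + n + 1) = (n : ℝ) ^ 3 / (((j : ℝ) + 1) * ((j : ℝ) + 2 * n + 1) *
          ((j : ℝ) + n + 1)) := by
      have : (j : ℝ) + 1 ≠ 0 := by positivity
      have : (j : ℝ) + 2 * n + 1 ≠ 0 := by positivity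
      have : (j : ℝ) + n + 1 ≠ 0 := by positivity
      field_simp
      ring
    rw [e1]
    positivity
  · rw [if_neg h1, sub_zero]
    rcases Nat.even_or_odd s with he | ho
    · rw [he.neg_one_pow, one_mul]
      have : ((n : ℝ) / ((j + 2 * n + 1 : ℕ) : ℝ)) ^ s ≤ ((n : ℝ) / ((j + 1 : ℕ) : ℝ)) ^ s := by
        apply pow_le_pow_left₀ (by positivity)
        apply div_le_div_of_nonneg_left hn'.le (by positivity)
        push_cast
        linarith
      linarith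
    · rw [ho.neg_one_pow]
      have e1 : (0 : ℝ) ≤ ((n : ℝ) / ((j + 2 * n + 1 : ℕ) : ℝ)) ^ s := by positivity
      have e2 : (0 : ℝ) ≤ ((n : ℝ) / ((j + 1 : ℕ) : ℝ)) ^ s := by positivity
      linarith

theorem fx_h_le (N s : ℕ) : h N s ≤ N := by
  unfold Pool.Agent.Helper43.OD.h
  calc _ ≤ ∑ _t ∈ range N, (1 : ℝ) := by
        apply Finset.sum_le_sum
        intro t _
        rw [div_le_one (by positivity)]
        apply one_le_pow₀
        push_cast
        have : (0 : ℝ) ≤ t := Nat.cast_nonneg t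
        linarith
    _ = N := by simp

theorem fx_h_nonneg (N s : ℕ) : 0 ≤ h N s := by
  unfold Pool.Agent.Helper43.OD.h
  apply Finset.sum_nonneg
  intro t _
  positivity

theorem fx_zt_nonneg (s : ℕ) : 0 ≤ zt s := tsum_nonneg fun n => by positivity

theorem fx_F_le (s N : ℕ) (hs : 1 ≤ s) (hN : 1 ≤ N) : F s N ≤ (1 + zt s) * (N : ℝ) ^ (s + 1) := by
  have hN' : (1 : ℝ) ≤ N := by exact_mod_cast hN
  have hz := fx_zt_nonneg s
  have h2 := fx_h_le N 1
  have h3 := fx_h_nonneg (2 * N) 1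
  have h4 := fx_h_le (2 * N) s
  have h5 := fx_h_nonneg (2 * N) s
  have hp : (0 : ℝ) ≤ (N : ℝ) ^ s := by positivity
  push_cast at h4
  unfold F
  split_ifs with h1 he
  · subst h1
    have e1 : (1 / 2) * (N : ℝ) * (2 * h N 1 - h (2 * N) 1) ≤ (N : ℝ) * N := by nlinarith
    have e2 : (N : ℝ) * N ≤ (1 + zt 1) * (N : ℝ) ^ (1 + 1) := by
      have e3 : (N : ℝ) ^ (1 + 1) = N * N := by ring
      have e4 := mul_nonneg hz (mul_self_nonneg (N : ℝ))
      rw [e3, add_mul, one_mul]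
      exact le_add_of_nonneg_right e4
    exact e1.trans e2
  · have e1 : (1 / 2) * (N : ℝ) ^ s * h (2 * N) s ≤ (N : ℝ) ^ (s + 1) := by
      rw [pow_succ]
      nlinarith
    have e2 : (0 : ℝ) ≤ (N : ℝ) ^ (s + 1) := by positivity
    nlinarith
  · have e1 : (N : ℝ) ^ s ≤ (N : ℝ) ^ (s + 1) := pow_le_pow_right₀ hN' (Nat.le_succ s)
    have e2 : (0 : ℝ) ≤ (N : ℝ) ^ (s + 1) := by positivity
    have e3 : 0 ≤ (1 / 2) * (N : ℝ) ^ s * h (2 * N) s := by positivity
    nlinarith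

theorem st_FX : ST_FX := by
  intro k s hs hk
  have hX : ∀ p : ℕ × ℕ, X k s (p.2, p.1) = 1 / ((p.1 + 1 : ℕ) : ℝ) ^ k * fx_x s (p.1 + 1) p.2 := by
    intro p
    unfold X fx_x
    have e1 : p.2 + 2 * p.1 + 3 = p.2 + 2 * (p.1 + 1) + 1 := by ring
    have e2 : p.2 + p.1 + 2 = p.2 + (p.1 + 1) + 1 := by ring
    simp only [e1, e2]
  have hfib : ∀ i : ℕ, HasSum (fun j : ℕ => X k s (j, i))
      (1 / ((i + 1 : ℕ) : ℝ) ^ k * F s (i + 1)) := by
    intro i
    have := (fx_sum s (i + 1) hs (by omega)).mul_left (1 / ((i + 1 : ℕ) : ℝ) ^ k)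
    refine this.congr_fun ?_
    intro j
    exact hX (i, j)
  have hnn : ∀ p : ℕ × ℕ, 0 ≤ X k s (p.2, p.1) := by
    intro p
    rw [hX]
    exact mul_nonneg (by positivity) (fx_nonneg s (p.1 + 1) p.2 hs (by omega))
  have hF0 : ∀ i : ℕ, 0 ≤ 1 / ((i + 1 : ℕ) : ℝ) ^ k * F s (i + 1) := by
    intro i
    exact (hfib i).nonneg (fun j => hnn (i, j))
  have hsw : Summable (fun p : ℕ × ℕ => X k s (p.2, p.1)) := by
    rw [summable_prod_of_nonneg (fun p => hnn p)]
    refine ⟨fun i => (hfib i).summable, ?_⟩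
    have h1 : (fun i : ℕ => ∑' j : ℕ, X k s ((i, j) : ℕ × ℕ).swap) =
        fun i : ℕ => 1 / ((i + 1 : ℕ) : ℝ) ^ k * F s (i + 1) := by
      funext i
      exact (hfib i).tsum_eq
    have h2 : Summable (fun i : ℕ => 1 / ((i + 1 : ℕ) : ℝ) ^ k * F s (i + 1)) := by
      have h3 : Summable (fun i : ℕ => (1 + zt s) * (1 / ((i + 1 : ℕ) : ℝ) ^ 2)) :=
        ((summable_nat_add_iff 1).2 (Real.summable_one_div_nat_pow.2 (by norm_num))).mul_left _
      refine Summable.of_nonneg_of_le hF0 ?_ h3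
      intro i
      have h4 := fx_F_le s (i + 1) hs (by omega)
      have h5 : (1 : ℝ) ≤ ((i + 1 : ℕ) : ℝ) := by
        push_cast
        have : (0 : ℝ) ≤ i := Nat.cast_nonneg i
        linarith
      have h6 : ((i + 1 : ℕ) : ℝ) ^ (s + 1) * ((i + 1 : ℕ) : ℝ) ^ 2 ≤ ((i + 1 : ℕ) : ℝ) ^ k := by
        rw [← pow_add]
        exact pow_le_pow_right₀ h5 (by omega)
      have h7 : (0 : ℝ) < ((i + 1 : ℕ) : ℝ) ^ k := by positivity
      have h8 : (0 : ℝ) < ((i + 1 : ℕ) : ℝ) ^ 2 := by positivity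
      have hz := fx_zt_nonneg s
      calc 1 / ((i + 1 : ℕ) : ℝ) ^ k * F s (i + 1)
          ≤ 1 / ((i + 1 : ℕ) : ℝ) ^ k * ((1 + zt s) * ((i + 1 : ℕ) : ℝ) ^ (s + 1)) :=
            mul_le_mul_of_nonneg_left h4 (by positivity)
        _ = (1 + zt s) * (((i + 1 : ℕ) : ℝ) ^ (s + 1) / ((i + 1 : ℕ) : ℝ) ^ k) := by ring
        _ ≤ (1 + zt s) * (1 / ((i + 1 : ℕ) : ℝ) ^ 2) := by
            apply mul_le_mul_of_nonneg_left _ (by linarith)
            rw [div_le_div_iff₀ h7 h8]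
            linarith
    exact h1 ▸ h2
  have hsum : Summable (X k s) := by
    have := (Equiv.prodComm ℕ ℕ).summable_iff.2 hsw
    exact this
  refine ⟨hsum, ?_⟩
  have h1 : HasSum (fun p : ℕ × ℕ => X k s (p.2, p.1)) (∑' p : ℕ × ℕ, X k s p) :=
    (Equiv.prodComm ℕ ℕ).hasSum_iff.2 hsum.hasSum
  exact h1.prod_fiberwise hfib

end Pool.Agent.Helper43.SF
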